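import Pool.Agent.Lib.MP_4318ff_ag.Spec.A3

/-!
# MP_4318ff_ag, `E/Et`: etale coverings from Galois extensions
-/

set_option autoImplicit false

namespace Pool.Agent.Lib.MP_4318ff_ag

open scoped LinearAlgebra.Projectivization

variable {k : Type} [Field k] {r : ℕ}

/-- The elements of the integral closure are integral over the intersection with the Kummer field. -/
theorem et_int (C : Config k r) (n : ℕ) (K : Type) [Field K] [Algebra (F k) K] (u : Chart C) :
    ∀ x ∈ u.A K, IsIntegral (u.A K ⊓ (Kummer K C n).toSubring : Subring K) x := by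
  intro x hx
  have hx' : IsIntegral u.R x := hx
  have hmem : ∀ s : u.R, algebraMap (F k) K (s : F k) ∈ (u.A K ⊓ (Kummer K C n).toSubring : Subring K) := by
    intro s
    refine ⟨?_, ?_⟩
    · change IsIntegral u.R (algebraMap (F k) K (s : F k))
      exact (isIntegral_algebraMap (R := u.R) (A := K) (x := s))
    · exact Subfield.subset_closure (Or.inl ⟨(s : F k), rfl⟩)
  let φ : u.R →+* (u.A K ⊓ (Kummer K C n).toSubring : Subring K) :=
    ((algebraMap (F k) K).comp u.R.val.toRingHom).codRestrict
      (u.A K ⊓ (Kummer K C n).toSubring : Subring K) hmem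
  exact IsIntegral.map_of_comp_eq φ (RingHom.id K) (by ext s; rfl) hx'

/-- The Kummer field is mapped into the Kummer field. -/
theorem et_kummer (C : Config k r) (n : ℕ) (K L : Type) [Field K] [Field L] [Algebra (F k) K] [Algebra (F k) L]
    [Algebra K L] [IsScalarTower (F k) K L] : ∀ x ∈ Kummer K C n, algebraMap K L x ∈ Kummer L C n := by
  have h : Kummer K C n ≤ (Kummer L C n).comap (algebraMap K L) := by
    unfold Kummer
    rw [Subfield.closure_le]
    rintro x (⟨f, rfl⟩ | ⟨i, j, hij⟩)
    · rw [SetLike.mem_coe, Subfield.mem_comap, ← IsScalarTower.algebraMap_apply]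
      exact Subfield.subset_closure (Or.inl ⟨f, rfl⟩)
    · rw [SetLike.mem_coe, Subfield.mem_comap]
      refine Subfield.subset_closure (Or.inr ⟨i, j, ?_⟩)
      rw [← map_pow, hij, ← IsScalarTower.algebraMap_apply]
  intro x hx
  exact h hx

/-- The main argument for a finite Galois extension `L` of `F` containing `K`. -/
theorem et_core (hED : ExtDerStmt) (hEL : ExtLStmt) (hES : EtStepStmt) (hMT : MTStmt)
    (k : Type) [Field k] [CharZero k] [IsAlgClosed k] (r n : ℕ) (C : Config k r) (K : Type)
    [Field K] [Algebra (F k) K] [Algebra k K] [IsScalarTower k (F k) K]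
    (L : Type) [Field L] [Algebra (F k) L] [Algebra K L] [IsScalarTower (F k) K L] [Algebra k L]
    [IsScalarTower k (F k) L] [FiniteDimensional (F k) L] [IsGalois (F k) L]
    (hC : C.InfRigid) (hr : 6 ≤ r) (hrn : r ≤ n + 1) (hK : IsEtaleCover C n K)
    (D : Chart C → Chart C → Derivation k K K) (hD : IsCocycle D) (hExt : ∀ P ∈ C.M, Ext n P D) :
    ∃ E : Chart C → Derivation k K K, (∀ u, ∀ x ∈ u.A K, E u x ∈ u.A K) ∧ ∀ u v, D u v = E v - E u := by
  obtain ⟨h1, h2, h3, T, T1, T2, T3⟩ := hED k K L
  choose ext hext using h1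
  have hcoc : IsCocycle (fun u v => ext (D u v)) := by
    intro u v w
    refine h2 _ _ fun x => ?_
    change (ext (D u v)) (algebraMap K L x) + (ext (D v w)) (algebraMap K L x) = _
    rw [hext, hext, hext, ← map_add, ← hD u v w]
    rfl
  have hRL : Roots L C n := by
    intro i j
    obtain ⟨z, hz⟩ := hK.roots i j
    exact ⟨algebraMap K L z, by rw [← map_pow, hz, ← IsScalarTower.algebraMap_apply]⟩
  have hExtL : ∀ P ∈ C.M, Ext n P (fun u v => ext (D u v)) := fun P hP =>
    hEL k r n C K L P D _ (by omega) hK.roots (fun u v x => hext (D u v) x) (hExt P hP)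
  obtain ⟨E', hE', hEb⟩ := hMT k r n C L hC hr hrn hRL _ hcoc hExtL
  have : CharZero K := charZero_of_injective_algebraMap (algebraMap k K).injective
  refine ⟨fun u => T (E' u), ?_, ?_⟩
  · intro u x hx
    refine hES K _ _ _ (hK.etale u) ((T (E' u)).restrictScalars ℤ) ?_ (et_int C n K u) x hx
    rintro y ⟨hy1, hy2⟩
    change T (E' u) y ∈ u.A K
    refine T3 u.R (E' u) y ?_
    refine hE' u _ ?_ (et_kummer C n K L y hy2)
    exact (h3 u.R y).2 hy1
  · intro u v
    rw [← T1, ← hEb u v]
    exact (T2 (D u v) (ext (D u v)) (hext (D u v))).symm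

theorem tEt : ExtDerStmt → ExtLStmt → EtStepStmt → MTStmt → EtStmt := by
  intro hED hEL hES hMT k _ _ _ r n C K _ _ _ _ hC hr hrn hK D hD hExt
  have := hK.finite
  have : CharZero (F k) := charZero_of_injective_algebraMap (algebraMap k (F k)).injective
  have : Algebra.IsAlgebraic (F k) (AlgebraicClosure K) := Algebra.IsAlgebraic.trans (F k) K (AlgebraicClosure K)
  have : IsAlgClosure (F k) (AlgebraicClosure K) := ⟨inferInstance, inferInstance⟩
  have : Normal (F k) (AlgebraicClosure K) := IsAlgClosure.normal (F k) (AlgebraicClosure K)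
  exact et_core hED hEL hES hMT k r n C K (IntermediateField.normalClosure (F k) K (AlgebraicClosure K))
    hC hr hrn hK D hD hExt

end Pool.Agent.Lib.MP_4318ff_ag
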