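import Pool.Agent.Lib.MP_4318ff_ag.Spec.A3

/-!
# MP_4318ff_ag: the etale step
-/

set_option autoImplicit false

namespace Pool.Agent.Lib.MP_4318ff_ag

open TensorProduct KaehlerDifferential

/-- Derivations extend to formally etale algebras. -/
private theorem etstep_ext {B A : Type} [CommRing B] [CommRing A] [Algebra B A]
    [Algebra.FormallyEtale B A] (δ : Derivation ℤ B A) :
    ∃ δ' : Derivation ℤ A A, ∀ b, δ' (algebraMap B A b) = δ b := by
  let l : A ⊗[B] Ω[B⁄ℤ] →ₗ[A] A := LinearMap.liftBaseChange A δ.liftKaehlerDifferential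
  let l' : Ω[A⁄ℤ] →ₗ[A] A :=
    l ∘ₗ (tensorKaehlerEquivOfFormallyEtale ℤ B A).symm.toLinearMap
  refine ⟨l'.compDer (KaehlerDifferential.D ℤ A), fun b => ?_⟩
  have h1 : l'.compDer (KaehlerDifferential.D ℤ A) (algebraMap B A b) =
      l ((tensorKaehlerEquivOfFormallyEtale ℤ B A).symm
        (KaehlerDifferential.D ℤ A (algebraMap B A b))) := rfl
  rw [h1, tensorKaehlerEquivOfFormallyEtale_symm_D_algebraMap]
  simp only [l, LinearMap.liftBaseChange_tmul, one_smul,
    Derivation.liftKaehlerDifferential_comp_D]

/-- A derivation which vanishes on the constants vanishes on algebraic elements. -/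
private theorem etstep_alg {B K : Type} [CommRing B] [IsDomain B] [Field K] [CharZero K]
    [Algebra B K] [FaithfulSMul B K] {A : Type} [CommRing A] [Algebra B A] [Algebra A K]
    [IsScalarTower B A K] [FaithfulSMul A K] (d : Derivation B A K) (x : A)
    (hx : IsAlgebraic B x) : d x = 0 := by
  classical
  obtain ⟨p0, hp0, hp1⟩ := hx
  have hex : ∃ m : ℕ, ∃ p : Polynomial B, p ≠ 0 ∧ Polynomial.aeval x p = 0 ∧ p.natDegree = m :=
    ⟨_, p0, hp0, hp1, rfl⟩
  obtain ⟨p, hp, hpx, hpm⟩ := Nat.find_spec hex
  have hinjK : Function.Injective (algebraMap A K) := FaithfulSMul.algebraMap_injective A K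
  have hinjB : Function.Injective (algebraMap B K) := FaithfulSMul.algebraMap_injective B K
  have hBc : CharZero B := by
    refine ⟨fun a b hab => ?_⟩
    have h1 := congrArg (algebraMap B K) hab
    rw [map_natCast, map_natCast] at h1
    exact Nat.cast_injective h1
  have hdeg : p.natDegree ≠ 0 := by
    intro h0
    rw [Polynomial.eq_C_of_natDegree_eq_zero h0, Polynomial.aeval_C] at hpx
    have h1 : algebraMap B K (p.coeff 0) = 0 := by
      rw [IsScalarTower.algebraMap_apply B A K, hpx, map_zero]
    have h2 : p.coeff 0 = 0 := hinjB (by rw [h1, map_zero])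
    apply hp
    rw [Polynomial.eq_C_of_natDegree_eq_zero h0, h2, Polynomial.C_0]
  have hder : Polynomial.aeval x (Polynomial.derivative p) ≠ 0 := by
    intro h0
    have h1 : Polynomial.derivative p ≠ 0 := by
      intro h2
      exact hdeg (Polynomial.derivative_eq_zero.1 h2)
    have h3 := Nat.find_min' hex ⟨_, h1, h0, rfl⟩
    have h4 := Polynomial.natDegree_derivative_lt hdeg
    omega
  have h5 := d.map_aeval p x
  rw [hpx, map_zero] at h5
  have h6 : algebraMap A K (Polynomial.aeval x (Polynomial.derivative p)) * d x = 0 := by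
    rw [← Algebra.smul_def]
    exact h5.symm
  exact (mul_eq_zero.1 h6).resolve_left fun h7 => hder (hinjK (by rw [h7, map_zero]))

theorem tEtStep : EtStepStmt := by
  intro K _ _ B A h hE E hBA hint x hx
  let _ : Algebra B A := (Subring.inclusion h).toAlgebra
  have _ : Algebra.Etale B A := hE
  have _ : IsScalarTower B A K := IsScalarTower.of_algebraMap_eq fun b => rfl
  -- the derivation with values in `A`
  let L : B →ₗ[ℤ] A := AddMonoidHom.toIntLinearMap
    { toFun := fun b => ⟨E (b : K), hBA b b.2⟩
      map_zero' := Subtype.ext (map_zero E)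
      map_add' := fun a b => Subtype.ext (map_add E (a : K) (b : K)) }
  have hL : ∀ b : B, (L b : K) = E (b : K) := fun b => rfl
  let δ : Derivation ℤ B A := Derivation.mk' L (by
    intro a b
    apply Subtype.ext
    have h1 : (((a • L b + b • L a : A)) : K) = a * (L b : K) + b * (L a : K) := rfl
    rw [h1, hL, hL, hL]
    have h2 := E.leibniz (a : K) (b : K)
    rw [smul_eq_mul, smul_eq_mul] at h2
    exact h2)
  obtain ⟨δ', hδ'⟩ := etstep_ext δ
  have hδ2 : ∀ b : B, ((δ' (algebraMap B A b) : A) : K) = E (b : K) := by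
    intro b
    rw [hδ']
    rfl
  -- the difference
  let d0 : A →ₗ[B] K :=
    { toFun := fun a => E (a : K) - (δ' a : K)
      map_add' := by
        intro a b
        rw [map_add]
        push_cast
        rw [map_add]
        ring
      map_smul' := by
        intro b a
        have h1 : b • a = algebraMap B A b * a := Algebra.smul_def b a
        have h2 : ((b • a : A) : K) = b * a := rfl
        have h3 : ((δ' (b • a) : A) : K) = b * (δ' a : K) + a * E (b : K) := by
          rw [h1, Derivation.leibniz]
          push_cast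
          rw [smul_eq_mul, smul_eq_mul]
          push_cast
          rw [hδ2]
          rfl
        rw [h2, h3, Derivation.leibniz, smul_eq_mul, smul_eq_mul, RingHom.id_apply]
        have h4 : b • (E (a : K) - (δ' a : K)) = (b : K) * (E (a : K) - (δ' a : K)) := rfl
        rw [h4]
        ring }
  let d : Derivation B A K := Derivation.mk' d0 (by
    intro a b
    have h1 : d0 (a * b) = E ((a * b : A) : K) - ((δ' (a * b) : A) : K) := rfl
    have h2 : a • d0 b = (a : K) * (E (b : K) - (δ' b : K)) := rfl
    have h3 : b • d0 a = (b : K) * (E (a : K) - (δ' a : K)) := rfl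
    rw [h1, h2, h3, Derivation.leibniz]
    push_cast
    rw [smul_eq_mul, smul_eq_mul, Derivation.leibniz, smul_eq_mul, smul_eq_mul]
    push_cast
    ring)
  have hd : d ⟨x, hx⟩ = 0 := by
    apply etstep_alg
    obtain ⟨p, hp, hp2⟩ := hint x hx
    refine ⟨p, hp.ne_zero, ?_⟩
    apply Subtype.ext
    have h1 : ((Polynomial.aeval (⟨x, hx⟩ : A) p : A) : K) = Polynomial.aeval x p :=
      (Polynomial.aeval_algebraMap_apply K (⟨x, hx⟩ : A) p).symm
    rw [h1]
    exact hp2
  have hfin : E x - ((δ' ⟨x, hx⟩ : A) : K) = 0 := hd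
  rw [sub_eq_zero.1 hfin]
  exact (δ' ⟨x, hx⟩).2

end Pool.Agent.Lib.MP_4318ff_ag
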