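import Pool.Agent.Lib.MP_4318ff_ag.Spec.A3

/-!
# MP_4318ff_ag: extension of derivations to a finite extension
-/

set_option autoImplicit false

namespace Pool.Agent.Lib.MP_4318ff_ag

open TensorProduct KaehlerDifferential

/-- Derivations extend to formally etale algebras. -/
private theorem extder_ext {k B A : Type} [CommRing k] [CommRing B] [CommRing A] [Algebra k B]
    [Algebra k A] [Algebra B A] [IsScalarTower k B A] [Algebra.FormallyEtale B A]
    (δ : Derivation k B A) :
    ∃ δ' : Derivation k A A, ∀ b, δ' (algebraMap B A b) = δ b := by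
  let l : A ⊗[B] Ω[B⁄k] →ₗ[A] A := LinearMap.liftBaseChange A δ.liftKaehlerDifferential
  let l' : Ω[A⁄k] →ₗ[A] A :=
    l ∘ₗ (tensorKaehlerEquivOfFormallyEtale k B A).symm.toLinearMap
  refine ⟨l'.compDer (KaehlerDifferential.D k A), fun b => ?_⟩
  have h1 : l'.compDer (KaehlerDifferential.D k A) (algebraMap B A b) =
      l ((tensorKaehlerEquivOfFormallyEtale k B A).symm
        (KaehlerDifferential.D k A (algebraMap B A b))) := rfl
  rw [h1, tensorKaehlerEquivOfFormallyEtale_symm_D_algebraMap]
  simp only [l, LinearMap.liftBaseChange_tmul, one_smul,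
    Derivation.liftKaehlerDifferential_comp_D]

/-- Uniqueness. -/
private theorem extder_uniq {k B A : Type} [CommRing k] [CommRing B] [CommRing A] [Algebra k B]
    [Algebra k A] [Algebra B A] [IsScalarTower k B A] [Algebra.FormallyUnramified B A]
    (δ δ' : Derivation k A A) (h : ∀ b, δ (algebraMap B A b) = δ' (algebraMap B A b)) :
    δ = δ' := by
  have h0 : ∀ b, (δ - δ') (algebraMap B A b) = 0 := by
    intro b
    rw [Derivation.sub_apply, h, sub_self]
  let d0 : A →ₗ[B] A :=
    { toFun := fun a => (δ - δ') a
      map_add' := fun a b => map_add _ a b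
      map_smul' := by
        intro b a
        rw [Algebra.smul_def, Derivation.leibniz, h0, smul_zero, add_zero, RingHom.id_apply,
          smul_eq_mul, Algebra.smul_def] }
  let d : Derivation B A A := Derivation.mk' d0 fun a b => (δ - δ').leibniz a b
  have h1 : ∀ a, d a = 0 := by
    intro a
    have h2 : d.liftKaehlerDifferential (KaehlerDifferential.D B A a) = d a :=
      Derivation.liftKaehlerDifferential_comp_D d a
    rw [← h2, Subsingleton.elim (KaehlerDifferential.D B A a) 0, map_zero]
  apply Derivation.ext
  intro a
  rw [← sub_eq_zero, ← Derivation.sub_apply]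
  exact h1 a

theorem tExtDer : ExtDerStmt := by
  intro k _ _ K L _ _ _ _ _ _ _ _ _ _ _
  have _ : FiniteDimensional K L := FiniteDimensional.right (F k) K L
  have _ : CharZero K := charZero_of_injective_algebraMap (algebraMap k K).injective
  have _ : IsScalarTower k K L := by
    apply IsScalarTower.of_algebraMap_eq
    intro x
    rw [IsScalarTower.algebraMap_apply k (F k) L, IsScalarTower.algebraMap_apply (F k) K L,
      ← IsScalarTower.algebraMap_apply k (F k) K]
  have _ : Algebra.FormallyEtale K L := Algebra.FormallyEtale.of_isSeparable K L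
  have _ : Algebra.FormallyUnramified K L := Algebra.FormallyUnramified.of_isSeparable K L
  have hd : ((Module.finrank K L : ℕ) : K) ≠ 0 :=
    Nat.cast_ne_zero.2 (Module.finrank_pos (R := K) (M := L)).ne'
  have _ : ∀ S : Subalgebra k (F k), IsScalarTower S K L := fun S =>
    IsScalarTower.of_algebraMap_eq fun x =>
      IsScalarTower.algebraMap_apply (F k) K L (x : F k)
  refine ⟨?_, ?_, ?_, ?_⟩
  · intro D
    let l : K →ₗ[k] L := (Algebra.linearMap K L).restrictScalars k ∘ₗ (D : K →ₗ[k] K)
    let δ : Derivation k K L := Derivation.mk' l (by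
      intro a b
      have h1 : l (a * b) = algebraMap K L (D (a * b)) := rfl
      have h2 : l a = algebraMap K L (D a) := rfl
      have h3 : l b = algebraMap K L (D b) := rfl
      rw [h1, h2, h3, Derivation.leibniz, map_add, smul_eq_mul, smul_eq_mul, map_mul, map_mul,
        Algebra.smul_def, Algebra.smul_def])
    obtain ⟨δ', hδ'⟩ := extder_ext δ
    exact ⟨δ', hδ'⟩
  · intro D D' h
    exact extder_uniq (B := K) D D' h
  · intro S x
    exact isIntegral_algebraMap_iff (algebraMap K L).injective
  · let T : Derivation k L L → Derivation k K K := fun D =>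
      Derivation.mk' (((((Module.finrank K L : ℕ) : K)⁻¹ • (Algebra.trace K L)).restrictScalars k) ∘ₗ
        ((D : L →ₗ[k] L) ∘ₗ (Algebra.linearMap K L).restrictScalars k)) (by
        intro a b
        change ((Module.finrank K L : ℕ) : K)⁻¹ • Algebra.trace K L (D (algebraMap K L (a * b))) =
          a • (((Module.finrank K L : ℕ) : K)⁻¹ • Algebra.trace K L (D (algebraMap K L b))) +
          b • (((Module.finrank K L : ℕ) : K)⁻¹ • Algebra.trace K L (D (algebraMap K L a)))
        rw [map_mul, Derivation.leibniz, map_add, algebraMap_smul, algebraMap_smul, map_smul,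
          map_smul, smul_add]
        rw [smul_comm a, smul_comm b])
    have hT : ∀ (D : Derivation k L L) (x : K), T D x =
        ((Module.finrank K L : ℕ) : K)⁻¹ * Algebra.trace K L (D (algebraMap K L x)) :=
      fun D x => rfl
    refine ⟨T, ?_, ?_, ?_⟩
    · intro D D'
      apply Derivation.ext
      intro x
      rw [Derivation.sub_apply, hT, hT, hT, Derivation.sub_apply, map_sub, mul_sub]
    · intro D D' h
      apply Derivation.ext
      intro x
      rw [hT, h, Algebra.trace_algebraMap, nsmul_eq_mul, ← mul_assoc, inv_mul_cancel₀ hd, one_mul]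
    · intro S D' x hx
      rw [hT]
      have h1 : IsIntegral S (D' (algebraMap K L x)) := hx
      have h2 : IsIntegral S (Algebra.trace K L (D' (algebraMap K L x))) :=
        Algebra.isIntegral_trace h1
      have h3 : IsIntegral S (((Module.finrank K L : ℕ) : K)⁻¹) := by
        have h4 : ((Module.finrank K L : ℕ) : K)⁻¹ =
            algebraMap S K (algebraMap k S (((Module.finrank K L : ℕ) : k)⁻¹)) := by
          have h5 : algebraMap S K (algebraMap k S (((Module.finrank K L : ℕ) : k)⁻¹)) =
              algebraMap (F k) K (algebraMap k (F k) (((Module.finrank K L : ℕ) : k)⁻¹)) := rfl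
          rw [h5, ← IsScalarTower.algebraMap_apply k (F k) K, map_inv₀, map_natCast]
        rw [h4]
        exact isIntegral_algebraMap
      exact h3.mul h2

end Pool.Agent.Lib.MP_4318ff_ag
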