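import Pool.Agent.Lib.MP_4318ff_ag.Spec.A3

/-!
# MP_4318ff_ag, module E/ExtL: `Ext` passes to a finite extension
-/

set_option autoImplicit false

namespace Pool.Agent.Lib.MP_4318ff_ag

open scoped LinearAlgebra.Projectivization

/-- Roots of unity lie in an algebraically closed subfield. -/
private theorem extl_one {k : Type} [Field k] [IsAlgClosed k] {L : Type} [Field L] [Algebra k L]
    {n : ℕ} (hn : 0 < n) (η : L) (h : η ^ n = 1) : ∃ ζ : k, algebraMap k L ζ = η := by
  have hint : IsIntegral k η := by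
    refine ⟨Polynomial.X ^ n - Polynomial.C 1, Polynomial.monic_X_pow_sub_C 1 hn.ne', ?_⟩
    simp [h]
  have h1 := IsAlgClosed.degree_eq_one_of_irreducible k (minpoly.irreducible hint)
  exact minpoly.mem_range_of_degree_eq_one k η h1

private theorem extl_root {k : Type} [Field k] [IsAlgClosed k] {K L : Type} [Field K] [Field L]
    [Algebra k K] [Algebra k L] [Algebra K L] [IsScalarTower k K L] {n : ℕ} (hn : 0 < n)
    (z : L) (u : K) (h : z ^ n = algebraMap K L (u ^ n)) :
    ∃ v : K, algebraMap K L v = z ∧ v ^ n = u ^ n := by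
  by_cases hu : u = 0
  · refine ⟨0, ?_, ?_⟩
    · rw [map_zero]
      rw [hu, zero_pow hn.ne', map_zero] at h
      exact (pow_eq_zero_iff hn.ne').1 h |>.symm
    · rw [hu]
  · have hu' : algebraMap K L u ≠ 0 := by
      rwa [Ne, map_eq_zero]
    obtain ⟨ζ, hζ⟩ := extl_one (k := k) hn (z / algebraMap K L u) (by
      rw [div_pow, h, map_pow, div_self (pow_ne_zero n hu')])
    have hζ1 : algebraMap k K ζ ^ n = 1 := by
      apply (algebraMap K L).injective
      rw [map_pow, ← IsScalarTower.algebraMap_apply, hζ, div_pow, h, map_pow,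
        div_self (pow_ne_zero n hu'), map_one]
    refine ⟨algebraMap k K ζ * u, ?_, ?_⟩
    · rw [map_mul, ← IsScalarTower.algebraMap_apply, hζ, div_mul_cancel₀ _ hu']
    · rw [mul_pow, hζ1, one_mul]

/-- `Ext` passes to a finite extension. -/
theorem tExtL : ExtDerStmt → ExtLStmt := by
  intro hD k _ _ _ r n C K L _ _ _ _ _ _ _ _ _ _ _ P D D' hn hroots hDD hExt
  have hkKL : IsScalarTower k K L := by
    refine IsScalarTower.of_algebraMap_eq fun x => ?_
    rw [IsScalarTower.algebraMap_apply k (F k) L, IsScalarTower.algebraMap_apply k (F k) K,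
      IsScalarTower.algebraMap_apply (F k) K L]
  obtain ⟨hex, -, hic, -⟩ := hD k K L
  obtain ⟨Δ, E, hΔ, hE, hDE⟩ := hExt
  choose lift hlift using hex
  -- regularity passes to the extension
  have hreg : ∀ (O : Subalgebra k (F k)) (δ : Derivation k K K), RegAt C n P O δ →
      RegAt C n P O (lift δ) := by
    intro O δ hδ
    refine ⟨fun c c' hc hc' hO => ?_, fun i hi j hj hO z hz => ?_⟩
    · rw [IsScalarTower.algebraMap_apply (F k) K L, hlift, hic]
      exact hδ.1 c c' hc hc' hO
    · obtain ⟨u, hu⟩ := hroots i j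
      rw [IsScalarTower.algebraMap_apply (F k) K L, ← hu] at hz
      obtain ⟨v, hv1, hv2⟩ := extl_root (k := k) hn z u hz
      rw [← hv1, hlift, hic]
      exact hδ.2 i hi j hj hO v (by rw [hv2, hu])
  refine ⟨fun u => lift (Δ u), fun a a' => lift (E a a'), ?_, ?_, ?_⟩
  · intro u O h1 h2
    exact hreg O _ (hΔ u O h1 h2)
  · intro a a' ha ha' hP hP'
    obtain ⟨h1, h2⟩ := hE a a' ha ha' hP hP'
    refine ⟨fun O g1 g2 g3 => hreg O _ (h1 O g1 g2 g3), fun c c' hc hc' => ?_⟩
    have h3 := h2 c c' hc hc'
    rw [IsScalarTower.algebraMap_apply (F k) K L, hlift]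
    have : IsScalarTower (PF P) K L := by
      refine IsScalarTower.of_algebraMap_eq fun x => ?_
      exact IsScalarTower.algebraMap_apply (F k) K L (x : F k)
    exact h3.algebraMap
  · intro u v c c' hc hc'
    have h1 := hDE u v c c' hc hc'
    rw [IsScalarTower.algebraMap_apply (F k) K L, hDD, h1]
    rw [Derivation.add_apply, Derivation.sub_apply, Derivation.add_apply, Derivation.sub_apply,
      hlift, hlift, hlift, map_add, map_sub]

end Pool.Agent.Lib.MP_4318ff_ag
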